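import Pool.Agent.W2helper58.SR.GenD

/-!
# MP_1ef7cf_nt: the Stark-Tate conjecture over real quadratic fields, for the extensions which are
abelian over an imaginary quadratic field

`Qbar` is an algebraic closure of `ℚ`. All fields are subfields of `Qbar`, and Galois groups are
described by the automorphisms `GQ` of `Qbar`.

* `F` is a real quadratic field, with its two real places given by the embeddings `ι` and `w`; `k` is
  an imaginary quadratic field; `M` is a Galois extension of `ℚ` which contains `F` and `k` and is
  abelian over `F` and over `k` (`AbelianOverBoth`).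
* `H` is any field between `F` and `M` with `w H` real, that is, the real place `w` of `F` splits
  completely in `H`.
* `𝔣` and `𝔪` are ideals of `F` and `k`, for instance both generated by the product of the prime
  numbers ramified in `M`; `artF`, `art` are the Artin symbols. `𝔤` is any nonzero ideal of `F`
  divisible by the primes dividing `𝔣`; the set `S` consists of the infinite places of `F` and the
  primes dividing `𝔤`.
* Known theorems used as hypotheses: `hS` is Stark's theorem for the abelian extension `M` of the
  imaginary quadratic field `k`; `hA` is Artin's formalism (invariance under conjugation, and the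
  equality `L(s, χ) = L(s, ψ)` of the `L`-functions of the characters `χ` of `M / F` and `ψ` of
  `M / k` which induce the same representation); `hB` says that the partial zeta functions of the
  totally real extensions of `F` in `M` have double zeros at zero (Hecke).

The conclusion `StarkRealQuad` is the rank one abelian Stark conjecture in Tate's form, as in Q1:
there is a unit `ε` of `H` with `w (σ ε) = exp (-2 ζ'(0, σ))` for all `σ`, with absolute value one
under all embeddings which do not extend `w` on `F`, and such that `H(ε^(1/2))` is abelian over `F`.
-/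

set_option autoImplicit false

namespace Pool.Agent.Results.MP_1ef7cf_nt.AbelianOverImaginaryQuadratic

open NumberField Pool.Agent.W2helper58.SR
open Pool.Agent.K4H33.SK (Qbar GQ IsTorsionOrder)
open Pool.Agent.K4H33.SK.Stmt (Sub Ideals IsArtin StarkImQuad)

theorem result (ι w : Qbar →+* ℂ) (F k M : Sub) [NumberField F] [NumberField k] [NumberField M]
    (h : AbelianOverBoth ι w F k M) (𝔣 : Ideals F) (𝔪 : Ideals k) (artF : Ideals F → GQ)
    (art : Ideals k → GQ) (hartF : IsArtin F M 𝔣 artF) (_hart : IsArtin k M 𝔪 art)
    (hA : ArtinFormalism F k M 𝔣 𝔪 artF art) (hB : TotallyRealZeros F M 𝔣 artF) (W : ℕ)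
    (hW : IsTorsionOrder M W) (hS : StarkImQuad ι k M 𝔪 art W)
    (H : Sub) (hFH : F ≤ H) (hHM : H ≤ M) (hw : ∀ x ∈ H, (w x).im = 0)
    (𝔤 : Ideals F) (h0 : 𝔤 ≠ ⊥) (hg : ∀ P : Ideals F, P.IsPrime → 𝔣 ≤ P → 𝔤 ≤ P) :
    StarkRealQuad w F H 𝔤 artF :=
  stark_general ι w F k M h 𝔣 𝔪 artF art hartF hA hB W hW hS H hFH hHM hw 𝔤 h0 hg

end Pool.Agent.Results.MP_1ef7cf_nt.AbelianOverImaginaryQuadratic
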