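import Mathlib
import Pool.Agent.W2helper72.SK.Exi

/-!
# Characters of mixed signature over real quadratic fields: formal isolation

The Stark units of the problem depend on the characters `ψ` of mixed signature over real quadratic
fields `K` (trivial on the complex conjugations over one real place of `K`, nontrivial over the
other). We determine for which `ψ` the L-function, or some power of it, is a product of integral
powers of Artin L-functions of other characters of a very large class. This holds only in the case
which comes from an imaginary quadratic field, and it fails for some `ψ` of order `4` over every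
real quadratic field.

The definitions are in `Pool.Agent.W2helper72.SK.Crit` (`Mixed`, `SameL`, `Accessible`),
`Pool.Agent.W2helper72.SK.Abs` (`SquareInvariant`), `Pool.Agent.W2helper73.SO.Prod` (`IsProd`),
`Pool.Agent.K4H74.ST.Inv` (`ArtinInvariant`) and `Pool.Agent.K4H74.SC.Core` (`Ext`, `G`, `Pair`,
`IsChr`, `lin`, `IsCC`, `logTerm`).
-/

set_option autoImplicit false

namespace Pool.Agent.Results.MP_1ef7cf_nt.Isolation

open Pool.Agent.K4H74.SK Pool.Agent.K4H74.ST Pool.Agent.W2helper73.SO Pool.Agent.W2helper72.SK
  NumberField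

/-- **Formal isolation.** Let `K` be a real quadratic field and `ψ` a linear character of mixed
signature of the Galois group of `L / K`. Equivalent are:

* for some `n ≠ 0`, `L(s, ψ) ^ n` is a product of integral powers of L-functions of accessible
  characters;
* every inductive invariant (for example the defect in Stark's conjecture) which is trivial at the
  accessible characters is trivial at `ψ`;
* `L(s, ψ) = L(s, ξ)` for a linear character `ξ` over an imaginary quadratic field;
* `ψ²` is invariant under all conjugations.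

For every real quadratic field `K` there are a cyclic extension `L / K` of degree four and a faithful
character `ψ` of mixed signature of its Galois group for which this is not true. -/
theorem result :
    (∀ (E : Ext) (ψ : G E →* ℂˣ), Mixed ψ →
      List.TFAE [∃ n : ℤ, n ≠ 0 ∧ IsProd (Accessible ψ) ⟨E, lin ψ⟩ n,
        ∀ (M : Type) [CommGroup M] (A : ArtinInvariant M),
          (∀ x, Accessible ψ x → A.val x.1.K x.1.L x.2 = 1) → A.val E.K E.L (lin ψ) = 1,
        ∃ (F : Ext) (ξ : G F →* ℂˣ), Module.finrank ℚ F.K = 2 ∧ IsTotallyComplex F.K ∧ SameL ψ ξ,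
        SquareInvariant ψ]) ∧
    ∀ (K : Type) [Field K] [NumberField K], Module.finrank ℚ K = 2 → IsTotallyReal K →
      ∃ (L : Type) (_ : Field L) (_ : NumberField L) (_ : Algebra K L) (_ : IsGalois K L)
        (ψ : G ⟨K, L⟩ →* ℂˣ), Function.Injective ψ ∧ (∀ g, ψ g ^ 4 = 1) ∧ (∃ g, ψ g ^ 2 ≠ 1) ∧
          Mixed ψ ∧ ∀ n : ℤ, n ≠ 0 → ¬ IsProd (Accessible ψ) ⟨⟨K, L⟩, lin ψ⟩ n := by
  refine ⟨fun E ψ hψ => criterion hψ, ?_⟩
  intro K _ _ h2 hK
  obtain ⟨L, i1, i2, i3, i4, ψ, hinj, h4, hm, hs⟩ := exists_isolated K h2 hK
  have h5 : (∃ n : ℤ, n ≠ 0 ∧ IsProd (Accessible ψ) ⟨⟨K, L⟩, lin ψ⟩ n) ↔ SquareInvariant ψ :=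
    (criterion hm).out 0 3
  refine ⟨L, i1, i2, i3, i4, ψ, hinj, h4, ?_, hm, fun n hn h => hs (h5.mp ⟨n, hn, h⟩)⟩
  by_contra hc
  push Not at hc
  exact hs fun _ _ _ g g' _ _ => by rw [hc, hc]

end Pool.Agent.Results.MP_1ef7cf_nt.Isolation
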